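import Mathlib
import Pool.Agent.H26.Toep

set_option autoImplicit false

open Matrix Filter Topology Pool.Agent.H26.Toep
open scoped ComplexOrder InnerProductSpace OnePoint

namespace Pool.Agent.Results.MP_a15892_an.Counterexample

def Pos {R : Type} [Ring R] [Star R] [Algebra ℂ R] (Y : R) : Prop :=
  star Y = Y ∧ ∀ t ∈ spectrum ℂ Y, t.im = 0 ∧ 0 ≤ t.re

def PTC (A : Type) [Ring A] [Star A] [Algebra ℂ A] : Prop :=
  ∀ k n : ℕ, 0 < k → k < n → ∀ a : ℤ → A, Pos (Toep k a) →
    ∃ y : ℤ → A, (∀ l : ℤ, |l| < k → y l = a l) ∧ Pos (Toep n y)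

abbrev Mat (m : ℕ) (A : Type) : Type := Matrix (Fin m) (Fin m) A

abbrev X := OnePoint ℕ
abbrev C := C(X, ℂ)

theorem pos_iff {ι : Type} [Fintype ι] [DecidableEq ι] (Y : Matrix ι ι C) :
    Pos Y ↔ ∀ x, (Y.map fun f => f x).PosSemidef := by
  let φ : X → (Matrix ι ι C →ₐ[ℂ] Matrix ι ι ℂ) := fun x =>
    (ContinuousMap.evalAlgHom ℂ ℂ x).mapMatrix
  simp only [posSemidef_iff_isHermitian_and_spectrum_nonneg]
  refine ⟨fun h x => ⟨?_, fun t ht => ?_⟩, fun h => ⟨?_, fun t ht => ?_⟩⟩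
  · ext i j
    exact congrArg (fun M : Matrix ι ι C => M i j x) h.1
  · have := h.2 t (AlgHom.spectrum_apply_subset (φ x) Y ht)
    exact ⟨this.2, this.1.symm⟩
  · ext i j x
    exact congrFun (congrFun (h x).1 i) j
  · rw [spectrum.mem_iff, isUnit_iff_isUnit_det, ContinuousMap.isUnit_iff_forall_ne_zero,
      not_forall] at ht
    obtain ⟨x, hx⟩ := ht
    have : t ∈ spectrum ℂ (φ x Y) := by
      rw [spectrum.mem_iff, ← (φ x).commutes, ← map_sub, isUnit_iff_isUnit_det,
        isUnit_iff_ne_zero]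
      have e := (ContinuousMap.evalAlgHom ℂ ℂ x).map_det (algebraMap ℂ _ t - Y)
      rw [← e]; exact hx
    have h2 := (h x).2 this
    exact ⟨h2.2.symm, h2.1⟩

theorem pos_comp {n m : ℕ} (Y : Mat n (Mat m C)) :
    Pos Y ↔ ∀ x, (Matrix.of fun p q : Fin n × Fin m => Y p.1 q.1 p.2 q.2 x).PosSemidef := by
  refine Iff.trans ?_ (pos_iff (compAlgEquiv (Fin n) (Fin m) C ℂ Y))
  rw [Pos, Pos, AlgEquiv.spectrum_eq]
  refine and_congr_left' ⟨fun h => ?_, fun h => ?_⟩
  · ext ⟨i, k⟩ ⟨j, l⟩ x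
    exact congrArg (fun M : Mat n (Mat m C) => M i j k l x) h
  · ext i j k l x
    exact congrArg (fun M : Matrix (Fin n × Fin m) (Fin n × Fin m) C => M (i, k) (j, l) x) h

theorem herm {k : ℕ} {a : ℤ → ℂ} (h : (Toep (k + 1) a).IsHermitian) (z : ℂ) :
    (Toep (k + 2) (upd (k + 1) a z)).IsHermitian := by
  have key : ∀ l : ℤ, |l| < (k + 1 : ℕ) → star (a l) = a (-l) := by
    intro l hl
    rw [abs_lt] at hl
    have := congrFun (congrFun h ⟨(-l).toNat, by omega⟩) ⟨l.toNat, by omega⟩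
    rw [conjTranspose_apply, Toep_apply, Toep_apply] at this
    convert this using 2
    · congr 1; simp only; omega
    · simp only; omega
  ext i j
  rw [conjTranspose_apply, Toep_apply, Toep_apply]
  have hi := i.2
  have hj := j.2
  by_cases h1 : ((j : ℕ) : ℤ) - (i : ℕ) = (k + 1 : ℕ)
  · rw [upd, upd, if_pos h1, if_neg (by omega), if_pos (by omega)]
  by_cases h2 : ((j : ℕ) : ℤ) - (i : ℕ) = -(k + 1 : ℕ)
  · rw [upd, upd, if_neg h1, if_pos h2, if_pos (by omega), star_star]
  rw [upd_lt _ _ (by rw [abs_lt]; omega), upd_lt _ _ (by rw [abs_lt]; omega),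
    key _ (by rw [abs_lt]; omega), neg_sub]

theorem Toep_upd {k : ℕ} (a : ℤ → ℂ) (z : ℂ) : Toep k (upd k a z) = Toep k a := by
  ext i j
  have hi := i.2
  have hj := j.2
  rw [Toep_apply, Toep_apply, upd_lt _ _ (by rw [abs_lt]; omega)]

theorem step {k : ℕ} (a : ℤ → C) (h : ∀ x, (Toep (k + 1) fun l => a l x).PosSemidef) :
    ∃ z : C, ∀ x, (Toep (k + 2) (upd (k + 1) (fun l => a l x) (z x))).PosSemidef := by
  classical
  choose z hz using fun x => ext1 (h x)
  have lim : ∀ l, Tendsto (fun n : ℕ => a l n) atTop (𝓝 (a l ∞)) := fun l =>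
    (OnePoint.continuous_iff_from_nat _).1 (a l).continuous
  by_cases hd : (Toep (k + 1) fun l => a l ∞).PosDef
  · obtain ⟨ε, hε, hp⟩ := gap hd
    have e : ∀ n (b : ℤ → ℂ), Toep n (fun l => if l = 0 then b l - ε else b l) =
        Toep n b - (ε : ℂ) • 1 := fun n b => by
      ext i j
      by_cases hij : i = j
      · simp [Toep_apply, hij]
      · have : ((i : ℕ) : ℤ) - (j : ℕ) ≠ 0 := fun h0 => hij (Fin.ext (by omega))
        simp [Toep_apply, hij, this]
    rw [← e] at hp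
    obtain ⟨w, hw⟩ := ext1 hp
    have e2 : upd (k + 1) (fun l => if l = 0 then a l ∞ - ε else a l ∞) w =
        fun l => if l = 0 then upd (k + 1) (fun l => a l ∞) w l - ε else
          upd (k + 1) (fun l => a l ∞) w l := by
      ext l
      by_cases h0 : l = 0
      · rw [upd_lt _ _ (by simp [h0]), upd_lt _ _ (by simp [h0])]
      · simp [upd, h0]
    rw [e2, e] at hw
    have ev := pert hw hε (N := fun n => Toep (k + 2) (upd (k + 1) (fun l => a l n) w))
      (fun n => herm (h n).1 w) (by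
        rw [sub_add_cancel]
        refine tendsto_pi_nhds.2 fun i => tendsto_pi_nhds.2 fun j => ?_
        simp only [Toep_apply, upd]
        split_ifs
        exacts [tendsto_const_nhds, tendsto_const_nhds, lim _])
    have hinf : (Toep (k + 2) (upd (k + 1) (fun l => a l ∞) w)).PosSemidef := by
      have := hw.add (PosSemidef.one.smul (show (0 : ℂ) ≤ ε by exact_mod_cast hε.le))
      rwa [sub_add_cancel] at this
    refine ⟨⟨fun x => if (Toep (k + 2) (upd (k + 1) (fun l => a l x) w)).PosSemidef then w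
      else z x, (OnePoint.continuous_iff_from_nat _).2 ?_⟩, fun x => ?_⟩
    · rw [if_pos hinf]
      exact tendsto_const_nhds.congr' (ev.mono fun n hn => (if_pos hn).symm)
    · simp only [ContinuousMap.coe_mk]
      split_ifs with h1
      exacts [h1, hz x]
  refine ⟨⟨z, (OnePoint.continuous_iff_from_nat _).2 ?_⟩, hz⟩
  rw [(h ∞).posDef_iff_det_ne_zero, not_not, ← exists_mulVec_eq_zero_iff] at hd
  obtain ⟨v0, hv0, hv1⟩ := hd
  obtain ⟨v, hv, hq⟩ := iso _ k v0 hv0 (by rw [Q, hv1, dotProduct_zero])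
  let S : X → ℂ := fun x => ∑ j : Fin k, a ((k : ℤ) - (j : ℕ)) x * v j.succ
  have b : ∀ x, ‖z x * v 0 + S x‖ ^ 2 ≤ ‖a 0 x‖ * ‖Q (k + 1) (fun l => a l x) v‖ := fun x => by
    have := cs (hz x) (Fin.last _) (Fin.snoc v 0)
    rw [← Q, Q_snoc, Q, Toep_upd, ← Q, Toep_apply, sub_self, upd_lt _ _ (by simp)] at this
    convert this using 3
    rw [mulVec, dotProduct, Fin.sum_univ_castSucc, Fin.sum_univ_succ]
    simp only [Fin.snoc_castSucc, Fin.snoc_last, mul_zero, add_zero, Toep_apply]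
    congr 1
    · simp [upd]
    · refine Finset.sum_congr rfl fun j _ => ?_
      have := j.2
      rw [upd_lt _ _ (by rw [abs_lt]; simp; omega)]
      simp
  have hS : Continuous S := by fun_prop
  have hQ : Continuous fun x : X => ‖a 0 x‖ * ‖Q (k + 1) (fun l => a l x) v‖ := by
    simp only [Q, dotProduct, mulVec, Toep_apply]; fun_prop
  have t1 := (OnePoint.continuous_iff_from_nat _).1 hQ
  have b0 := b ∞
  rw [hq, norm_zero, mul_zero] at t1 b0
  have t2 : Tendsto (fun n : ℕ => z n * v 0 + S n) atTop (𝓝 0) := by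
    rw [tendsto_zero_iff_norm_tendsto_zero]
    have := (squeeze_zero (fun n : ℕ => sq_nonneg _) (fun n => b n) t1).sqrt
    simpa using this
  have b1 : z ∞ * v 0 + S ∞ = 0 := by simpa using b0
  have t3 := (t2.sub ((OnePoint.continuous_iff_from_nat _).1 hS)).div_const (v 0)
  have e : (0 - S ∞) / v 0 = z ∞ := by field_simp; linear_combination -b1
  rw [e] at t3
  exact t3.congr fun n => by field_simp; ring

theorem ptc : PTC C := by
  intro k n hk hkn a ha
  obtain ⟨k, rfl⟩ := Nat.exists_eq_succ_of_ne_zero hk.ne'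
  replace hkn := hkn.le
  induction n, hkn using Nat.le_induction with
  | base => exact ⟨a, fun _ _ => rfl, ha⟩
  | succ n hn ih =>
    obtain ⟨y, hy, hp⟩ := ih
    obtain ⟨n, rfl⟩ := Nat.exists_eq_succ_of_ne_zero (show n ≠ 0 by omega)
    obtain ⟨z, hz⟩ := step y ((pos_iff _).1 hp)
    refine ⟨upd (n + 1) y z, fun l hl => ?_, (pos_iff _).2 fun x => ?_⟩
    · rw [upd_lt _ _ (by omega), hy l hl]
    · convert hz x using 1
      ext i j
      simp only [map_apply, Toep_apply, upd]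
      split_ifs <;> rfl

noncomputable def ee : C := OnePoint.continuousMapMkNat (fun n => ((1 / ((n : ℝ) + 1) : ℝ) : ℂ)) 0
  (by exact_mod_cast (Complex.continuous_ofReal.tendsto 0).comp
        tendsto_one_div_add_atTop_nhds_zero_nat)

noncomputable def ss : C :=
  OnePoint.continuousMapMkNat (fun n => (-1) ^ n * ((1 / ((n : ℝ) + 1) : ℝ) : ℂ)) 0 (by
    rw [tendsto_zero_iff_norm_tendsto_zero]
    refine tendsto_one_div_add_atTop_nhds_zero_nat.congr fun n => ?_
    rw [norm_mul, Complex.norm_real, Real.norm_of_nonneg (by positivity)]; simp)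

theorem es (x : X) : ∃ r s : ℝ, s * s = 1 ∧ ee x = r ∧ ss x = s * r := by
  induction x using OnePoint.rec with
  | infty => exact ⟨0, 1, by simp, rfl, by simp; rfl⟩
  | coe n => exact ⟨_, (-1) ^ n, by rw [← mul_pow]; simp, rfl, by
      rw [Complex.ofReal_pow, Complex.ofReal_neg, Complex.ofReal_one]; rfl⟩

noncomputable def aa (l : ℤ) : Mat 2 C :=
  if l = 0 then !![1, 0; 0, ee * ee] else if l = 1 then !![0, ss; ee, 0] else !![0, ee; ss, 0]

theorem not_ptc : ¬ PTC (Mat 2 C) := by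
  intro h
  obtain ⟨y, hy, hp⟩ := h 2 3 (by norm_num) (by norm_num) aa ((pos_comp _).2 fun x => by
    obtain ⟨r, s, hs, e1, e2⟩ := es x
    have hs' : (s : ℂ) * s = 1 := by exact_mod_cast hs
    let B : Matrix (Fin 2) (Fin 2 × Fin 2) ℂ := Matrix.of fun i p =>
      (!![![1, 0], ![0, (r : ℂ)]; ![0, (r : ℂ)], ![(s : ℂ), 0]] i p.1) p.2
    suffices e : (Matrix.of fun p q : Fin 2 × Fin 2 => Toep 2 aa p.1 q.1 p.2 q.2 x) = Bᴴ * B by
      rw [e]; exact posSemidef_conjTranspose_mul_self B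
    ext ⟨i, k⟩ ⟨j, l⟩
    fin_cases i <;> fin_cases j <;> fin_cases k <;> fin_cases l <;>
      simp [B, Toep_apply, aa, mul_apply, Fin.sum_univ_two, e1, e2, hs', mul_comm])
  have y0 := hy 0 (by norm_num)
  have y1 := hy 1 (by norm_num)
  have y2 := hy (-1) (by norm_num)
  have key : ∀ n : ℕ, y 2 0 0 n = (-1) ^ n := by
    intro n
    have hn := (pos_comp _).1 hp n
    let w : Fin 3 × Fin 2 → ℂ := fun p => !![ee n, 0; 0, -1; 0, 0] p.1 p.2
    have h0 := (hn.dotProduct_mulVec_zero_iff w).1 (by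
      simp [w, dotProduct, mulVec, Fintype.sum_prod_type, Fin.sum_univ_succ, Toep_apply, y0, y1,
        y2, aa])
    have h1 := congrFun h0 (2, 0)
    simp [w, dotProduct, mulVec, Fintype.sum_prod_type, Fin.sum_univ_succ, Toep_apply, y1,
      aa] at h1
    have e2 : ss n = (-1) ^ n * ee n := rfl
    have e3 : ee n ≠ 0 := Complex.ofReal_ne_zero.2 (by positivity)
    refine mul_right_cancel₀ e3 ?_
    rw [← e2]; linear_combination h1
  have t := (OnePoint.continuous_iff_from_nat _).1 (y 2 0 0).continuous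
  simp only [key] at t
  have t1 := t.comp (tendsto_id.const_mul_atTop' (show 0 < 2 by norm_num))
  have t2 := t.comp (tendsto_add_atTop_nat 1 |>.comp
    (tendsto_id.const_mul_atTop' (show 0 < 2 by norm_num)))
  have e1 : ((fun x : ℕ => (-1 : ℂ) ^ x) ∘ fun x => 2 * id x) = fun _ => 1 := by
    ext n; simp
  have e2 : ((fun x : ℕ => (-1 : ℂ) ^ x) ∘ (fun a => a + 1) ∘ fun x => 2 * id x) = fun _ => -1 := by
    ext n; simp [pow_succ]
  rw [e1] at t1
  rw [e2] at t2
  have := (tendsto_nhds_unique tendsto_const_nhds t1).trans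
    (tendsto_nhds_unique t2 tendsto_const_nhds)
  norm_num at this

theorem result : ∃ (A : Type) (_ : CStarAlgebra A) (m : ℕ), 0 < m ∧ PTC A ∧ ¬ PTC (Mat m A) :=
  ⟨C, inferInstance, 2, two_pos, ptc, not_ptc⟩

end Pool.Agent.Results.MP_a15892_an.Counterexample
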